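import Pool.Agent.H.MP_353193_lc.OC.Cc

/-!
# Colourings of `R_ω` with fewer than `aleph omega` colours
-/

set_option autoImplicit false

namespace Pool.Agent.Results.MP_353193_lc.CountablyManyColours

open Pool.Agent.H.MP_353193_lc Pool.Agent.H.MP_353193_lc.SM Pool.Agent.H.MP_353193_lc.OC

/-- Let `c` be a colouring of `R = R_ω` with fewer than `aleph omega` colours. Then there is a strictly increasing map
`φ : R → R` such that `c` takes only countably many values on its image. -/
theorem result :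
    ∀ (R : Set (Ordinal.{0} → Bool)) (lt : (Ordinal.{0} → Bool) → (Ordinal.{0} → Bool) → Prop),
      (∀ f, f ∈ R ↔ ((∃ ν, f ν = true) ∧
          ∃ β : Ordinal.{0}, β < (Cardinal.aleph (Ordinal.omega0 : Ordinal.{0})).ord ∧
            ∀ ν, f ν = true → ν < β)) →
      (∀ f g, lt f g ↔ ∃ ν : Ordinal.{0}, (∀ μ, μ < ν → f μ = g μ) ∧ f ν = false ∧ g ν = true) →
      ∀ (X : Type) (c : (Ordinal.{0} → Bool) → X),
        Cardinal.mk X < Cardinal.aleph (Ordinal.omega0 : Ordinal.{0}) →
        ∃ φ : (Ordinal.{0} → Bool) → (Ordinal.{0} → Bool),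
          (∀ f ∈ R, φ f ∈ R) ∧
          (∀ f ∈ R, ∀ g ∈ R, lt f g → lt (φ f) (φ g)) ∧
          ((fun f => c (φ f)) '' R).Countable := by
  intro R' lt hR hlt X c hX
  have hR' : R' = R omω := by
    ext f
    rw [hR]
    rfl
  have hlt' : lt = lexlt := by
    funext f g
    exact propext (hlt f g)
  subst hR'
  subst hlt'
  obtain ⟨φ, h1, h2⟩ := countable_colours hX c
  exact ⟨φ, fun f hf => (h1.1 f hf).1, h1.2, h2⟩

end Pool.Agent.Results.MP_353193_lc.CountablyManyColours
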