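import Pool.Agent.H.MP_353193_lc.OC.Mn

/-!
# Graphs on `R_ω` with few neighbours of the own colour
-/

set_option autoImplicit false

namespace Pool.Agent.Results.MP_353193_lc.FewOwnNeighbours

open Pool.Agent.H.MP_353193_lc Pool.Agent.H.MP_353193_lc.OC

/-- Let `G` be a graph on `R = R_ω`, `c` a colouring with finitely many colours, and `m < |R|` a cardinal. If the set of the
vertices with more than `m` neighbours of their own colour contains no copy of `R` (no strictly increasing map `ψ` of `R` has all its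
values there), then `G` has an independent copy of `R`: there is a strictly increasing map `φ : R → R` whose values are pairwise
not adjacent. -/
theorem result :
    ∀ (R : Set (Ordinal.{0} → Bool)) (lt : (Ordinal.{0} → Bool) → (Ordinal.{0} → Bool) → Prop),
      (∀ f, f ∈ R ↔ ((∃ ν, f ν = true) ∧
          ∃ β : Ordinal.{0}, β < (Cardinal.aleph (Ordinal.omega0 : Ordinal.{0})).ord ∧
            ∀ ν, f ν = true → ν < β)) →
      (∀ f g, lt f g ↔ ∃ ν : Ordinal.{0}, (∀ μ, μ < ν → f μ = g μ) ∧ f ν = false ∧ g ν = true) →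
      ∀ (G : SimpleGraph (Ordinal.{0} → Bool)) (r : ℕ) (c : (Ordinal.{0} → Bool) → Fin r)
        (m : Cardinal.{1}), m < Cardinal.mk R →
        (¬ ∃ ψ : (Ordinal.{0} → Bool) → (Ordinal.{0} → Bool),
          (∀ f ∈ R, ψ f ∈ R ∧
            m < Cardinal.mk {g : Ordinal.{0} → Bool // g ∈ R ∧ G.Adj (ψ f) g ∧ c g = c (ψ f)}) ∧
          ∀ f ∈ R, ∀ g ∈ R, lt f g → lt (ψ f) (ψ g)) →
        ∃ φ : (Ordinal.{0} → Bool) → (Ordinal.{0} → Bool),
          (∀ f ∈ R, φ f ∈ R) ∧
          (∀ f ∈ R, ∀ g ∈ R, lt f g → lt (φ f) (φ g)) ∧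
          (∀ f ∈ R, ∀ g ∈ R, ¬ G.Adj (φ f) (φ g)) := by
  intro R' lt hR hlt G r c m hm h
  have hR' : R' = R omω := by
    ext f
    rw [hR]
    rfl
  have hlt' : lt = lexlt := by
    funext f g
    exact propext (hlt f g)
  subst hR'
  subst hlt'
  exact main_col G r c hm h

end Pool.Agent.Results.MP_353193_lc.FewOwnNeighbours
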