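import Pool.Agent.H.MP_353193_lc.BV.T11

/-!
# One Cohen real refutes `η_ω → (3, η_ω)²`; ZFC does not prove it
-/

set_option autoImplicit false

namespace Pool.Agent.Results.MP_353193_lc.OneCohenReal

open FirstOrder Pool.Agent.H.MP_8ff4bd_gt.M3 Pool.Agent.H.MP_353193_lc.BV

universe u

/-- There is a sentence `φ` of the first-order language of set theory such that

1. in every epsilon-structure `(M, E)` the sentence `φ` says: for `w = ω_ω` every triangle-free graph on the set `R(w)` of the nonempty
  subsets of elements of `w` (the supports of the nonzero 0-1 sequences of length `w` with support bounded below `w`), ordered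
  lexicographically, has an independent set which is the image of `R(w)` under a strictly increasing function;
2. in the universe `ZFSet` of sets, `φ` is true if and only if the frozen statement S14565 (the relation `η_ω → (3, η_ω)²`) is true;
3. the theory `ZFC`, given as a set of sentences, has the expected models, and the universe of sets is one of them;
4. for the algebra of one Cohen real (regular open algebra of the finite sequences over a countable set) the Boolean value of the
  relation (with Boolean-valued sequences, graphs and maps) is `⊥`;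
5. `φ` is not a consequence of `ZFC`. -/
theorem result : ∃ φ : LSet.Sentence,
    (∀ (M : Type u) (E : M → M → Prop), Sat E φ ↔ PlainE.EtaArrow E) ∧
    (Sat (fun x y : ZFSet.{0} => x ∈ y) φ ↔
      ∀ (R : Set (Ordinal.{0} → Bool)) (lt : (Ordinal.{0} → Bool) → (Ordinal.{0} → Bool) → Prop),
        (∀ f, f ∈ R ↔ ((∃ ν, f ν = true) ∧
            ∃ β : Ordinal.{0}, β < (Cardinal.aleph (Ordinal.omega0 : Ordinal.{0})).ord ∧
              ∀ ν, f ν = true → ν < β)) →
        (∀ f g, lt f g ↔ ∃ ν : Ordinal.{0}, (∀ μ, μ < ν → f μ = g μ) ∧ f ν = false ∧ g ν = true) →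
        ∀ G : SimpleGraph (Ordinal.{0} → Bool),
          (∀ a ∈ R, ∀ b ∈ R, ∀ c ∈ R, ¬ (G.Adj a b ∧ G.Adj b c ∧ G.Adj a c)) →
          ∃ Φ : (Ordinal.{0} → Bool) → (Ordinal.{0} → Bool),
            (∀ f ∈ R, Φ f ∈ R) ∧
            (∀ f ∈ R, ∀ g ∈ R, lt f g → lt (Φ f) (Φ g)) ∧
            (∀ f ∈ R, ∀ g ∈ R, ¬ G.Adj (Φ f) (Φ g))) ∧
    (∀ (M : Type u) (E : M → M → Prop),
      @FirstOrder.Language.Theory.Model LSet M (epsStr E) ZFC ↔ ZFCModel E) ∧
    ZFCModel (fun x y : ZFSet.{0} => x ∈ y) ∧
    sv (_root_.M3.RO One.Cd) Wω = ⊥ ∧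
    ¬ (ZFC ⊨ᵇ φ) := by
  refine ⟨etaSentence, fun M E => sat_etaSentence_iff E, sat_ZFSet_etaSentence,
    fun M E => model_ZFC_iff, _root_.M3.BSet.zfcModel_ZFSet, sv_one, ?_⟩
  refine (_root_.M3.BSet.bzfc (B := One.BOne)).not_models _ ?_
  rw [bval_eta_bot One.bccc_BOne One.core_one]
  exact bot_ne_top

end Pool.Agent.Results.MP_353193_lc.OneCohenReal
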