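import Pool.Agent.H.MP_353193_lc.SM.FnU

/-!
# Free copies of `R_ω` for set mappings with few first differences; families of graphs without `K_{r, aleph_(n+1)}`
-/

set_option autoImplicit false

namespace Pool.Agent.Results.MP_353193_lc.SetMappings

open Pool.Agent.H.MP_353193_lc Pool.Agent.H.MP_353193_lc.SM

/-- Let `R = R_ω`, `k`, `n` natural numbers, `c` a colouring with `k` colours. For every `x ∈ R` let `F x` be a set of sequences
such that at most `aleph n` ordinals `δ` are the first difference of `x` and some `y ∈ R` in `F x` and have a digit 1 of `x` at or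
after `δ`. Let `Gs` be a set of at most `aleph n` graphs such that for every `G ∈ Gs` there is an `r` such that no `r` points of `R`
of one colour have more than `aleph n` common neighbours of that colour in `R` (in `G`). Then there is a strictly increasing map
`φ : R → R` with `φ g ∉ F (φ f)` for all `f ≠ g` in `R` whose values are pairwise not adjacent in every `G ∈ Gs`. -/
theorem result :
    ∀ (R : Set (Ordinal.{0} → Bool)) (lt : (Ordinal.{0} → Bool) → (Ordinal.{0} → Bool) → Prop),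
      (∀ f, f ∈ R ↔ ((∃ ν, f ν = true) ∧
          ∃ β : Ordinal.{0}, β < (Cardinal.aleph (Ordinal.omega0 : Ordinal.{0})).ord ∧
            ∀ ν, f ν = true → ν < β)) →
      (∀ f g, lt f g ↔ ∃ ν : Ordinal.{0}, (∀ μ, μ < ν → f μ = g μ) ∧ f ν = false ∧ g ν = true) →
      ∀ (k n : ℕ) (c : (Ordinal.{0} → Bool) → Fin k)
        (F : (Ordinal.{0} → Bool) → Set (Ordinal.{0} → Bool))
        (Gs : Set (SimpleGraph (Ordinal.{0} → Bool))),
        (∀ x ∈ R, Cardinal.mk {δ : Ordinal.{0} // ∃ y ∈ F x, y ∈ R ∧ (∃ ν, δ ≤ ν ∧ x ν = true) ∧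
          (∀ μ, μ < δ → y μ = x μ) ∧ y δ ≠ x δ} ≤ Cardinal.aleph (n : Ordinal.{1})) →
        Cardinal.mk Gs ≤ Cardinal.aleph (n : Ordinal.{1}) →
        (∀ G ∈ Gs, ∃ r : ℕ, ∀ (i : Fin k) (A : Finset (Ordinal.{0} → Bool))
          (B : Set (Ordinal.{0} → Bool)), A.card = r →
          (∀ a ∈ A, a ∈ R ∧ c a = i) → (∀ b ∈ B, b ∈ R ∧ c b = i) → (∀ a ∈ A, ∀ b ∈ B, G.Adj a b) →
          Cardinal.mk B ≤ Cardinal.aleph (n : Ordinal.{1})) →
        ∃ φ : (Ordinal.{0} → Bool) → (Ordinal.{0} → Bool),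
          (∀ f ∈ R, φ f ∈ R) ∧
          (∀ f ∈ R, ∀ g ∈ R, lt f g → lt (φ f) (φ g)) ∧
          (∀ f ∈ R, ∀ g ∈ R, f ≠ g → φ g ∉ F (φ f)) ∧
          (∀ G ∈ Gs, ∀ f ∈ R, ∀ g ∈ R, ¬ G.Adj (φ f) (φ g)) := by
  intro R' lt hR hlt k n c F Gs hF hGs hG
  have hR' : R' = R omω := by
    ext f
    rw [hR]
    rfl
  have hlt' : lt = lexlt := by
    funext f g
    exact propext (hlt f g)
  subst hR'
  subst hlt'
  obtain ⟨φ, h1, h2, h3⟩ := main_allU k n c F (fun x hx => hF x hx) Gs hGs hG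
  exact ⟨φ, fun f hf => (h1.1 f hf).1, h1.2, h2, h3⟩

end Pool.Agent.Results.MP_353193_lc.SetMappings
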